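import Pool.Agent.L7h71.FP.Stm2

set_option autoImplicit false

/-!
Project DU, part EQV: closed groups without infinite coinfinite invariant sets (over finite sets)
are open or preserve, over a finite set, an equivalence relation with finite classes.
-/

namespace Pool.Agent.L7h50.DU

open Set
open Pool.Agent.L7h71.FP

/-- the orbits of the stabilisers of finite sets: one infinite orbit, which is cofinite -/
theorem one_orbit {K : PG} (hM : ¬ Moi K) {F : Set ℕ} (hF : F.Finite) :
    (acl K F).Finite ∧ ∀ x y, x ∉ acl K F → y ∉ acl K F → y ∈ O (st K F) x := by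
  have inv : ∀ A : Set ℕ, A.Infinite → (∀ k ∈ st K F, ∀ n, k n ∈ A ↔ n ∈ A) → Aᶜ.Finite := by
    intro A hA hk
    by_contra hc
    exact hM ⟨F, hF, A, hA, hc, hk⟩
  have inv1 : ∀ x, x ∉ acl K F → (O (st K F) x)ᶜ.Finite := by
    intro x hx
    refine inv _ hx ?_
    intro k hk n
    constructor
    · intro h
      exact O_trans h (O_symm ⟨k, hk, rfl⟩)
    · intro h
      exact O_trans h ⟨k, hk, rfl⟩
  have hex : ∃ x, x ∉ acl K F := by
    by_contra hcon
    push Not at hcon
    -- all orbits are finite
    let Q : Set (Set ℕ) := {X | ∃ x, X = O (st K F) x}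
    have hQ : Q.Infinite := by
      intro hQf
      have h1 : (univ : Set ℕ) ⊆ ⋃₀ Q := by
        intro x _
        exact ⟨O (st K F) x, ⟨x, rfl⟩, O_refl _ x⟩
      refine Set.infinite_univ ((Set.Finite.sUnion hQf ?_).subset h1)
      rintro _ ⟨x, rfl⟩
      exact hcon x
    let f := hQ.natEmbedding
    choose x hx using fun n => (f n).2
    have hxi : ∀ n k, O (st K F) (x n) = O (st K F) (x k) → n = k := by
      intro n k h
      apply f.injective
      apply Subtype.ext
      rw [hx n, hx k, h]
    have hxinj : ∀ n k, x n = x k → n = k := fun n k h => hxi n k (by rw [h])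
    let A : Set ℕ := {y | ∃ n, O (st K F) y = O (st K F) (x (2 * n))}
    have hA : A.Infinite := by
      refine Set.infinite_of_injective_forall_mem (f := fun n => x (2 * n)) ?_ ?_
      · intro a b h
        have := hxinj _ _ h
        omega
      · intro n; exact ⟨n, rfl⟩
    have hAc : Aᶜ.Infinite := by
      refine Set.infinite_of_injective_forall_mem (f := fun n => x (2 * n + 1)) ?_ ?_
      · intro a b h
        have := hxinj _ _ h
        omega
      · rintro n ⟨k, hk⟩
        have := hxi _ _ hk
        omega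
    refine hAc (inv A hA ?_)
    intro k hk n
    have h1 : O (st K F) (k n) = O (st K F) n := O_eq ⟨k, hk, rfl⟩
    constructor
    · rintro ⟨j, hj⟩; exact ⟨j, by rw [← h1]; exact hj⟩
    · rintro ⟨j, hj⟩; exact ⟨j, by rw [h1]; exact hj⟩
  obtain ⟨x0, hx0⟩ := hex
  constructor
  · refine (inv1 x0 hx0).subset ?_
    intro y hy hyO
    exact hx0 (O_acl hy (O_symm hyO))
  · intro x y hx hy
    have h1 : (O (st K F) y).Infinite := hy
    have h2 : (O (st K F) y ∩ O (st K F) x).Nonempty := by
      by_contra hcon
      rw [Set.not_nonempty_iff_eq_empty] at hcon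
      refine h1 ((inv1 x hx).subset ?_)
      intro z hz hz'
      have : z ∈ O (st K F) y ∩ O (st K F) x := ⟨hz, hz'⟩
      rw [hcon] at this
      exact this
    obtain ⟨z, hz1, hz2⟩ := h2
    exact O_trans hz2 (O_symm hz1)

theorem oli_of {K : PG} (hM : ¬ Moi K) : Oli K := by
  intro F hF
  obtain ⟨h1, h2⟩ := one_orbit hM hF
  by_cases hx : ∃ x0, x0 ∉ acl K F
  · obtain ⟨x0, hx0⟩ := hx
    refine ((h1.image (fun x => O (st K F) x)).union
      (Set.finite_singleton (O (st K F) x0))).subset ?_
    rintro _ ⟨x, rfl⟩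
    by_cases hx : x ∈ acl K F
    · exact Or.inl ⟨x, hx, rfl⟩
    · exact Or.inr (O_eq (h2 x0 x hx0 hx))
  · push Not at hx
    refine (h1.image (fun x => O (st K F) x)).subset ?_
    rintro _ ⟨x, rfl⟩
    exact ⟨x, hx x, rfl⟩

/-- trivial closures give an open group -/
theorem opn_of {K : PG} (hK : Clo K) (hM : ¬ Moi K)
    (h : ∀ C : Set ℕ, C.Finite → acl K C = C → ∀ x, x ∉ C →
      acl K (insert x C) = insert x C) : Opn K := by
  have ho := oli_of hM
  set C0 := acl K ∅ with hC0
  have hC0f : C0.Finite := acl_finite ho Set.finite_empty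
  have hC0c : acl K C0 = C0 := acl_acl ho Set.finite_empty
  have hcl : ∀ D : Set ℕ, D.Finite → acl K (C0 ∪ D) = C0 ∪ D := by
    intro D hD
    induction D, hD using Set.Finite.induction_on with
    | empty => rw [Set.union_empty]; exact hC0c
    | @insert a D ha hD ih =>
      rw [Set.union_insert]
      by_cases haD : a ∈ C0 ∪ D
      · rw [Set.insert_eq_of_mem haD]; exact ih
      · exact h (C0 ∪ D) (hC0f.union hD) ih a haD
  refine ⟨C0, hC0f, fun σ hσ => hK σ ?_⟩
  intro s
  have key : ∀ D : Set ℕ, D.Finite → ∃ g ∈ K, ∀ i ∈ C0 ∪ D, g i = σ i := by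
    intro D hD
    induction D, hD using Set.Finite.induction_on with
    | empty =>
      refine ⟨1, K.one_mem, ?_⟩
      intro i hi
      rw [Set.union_empty] at hi
      rw [hσ i hi]; rfl
    | @insert a D ha hD ih =>
      obtain ⟨g, hg, hgi⟩ := ih
      by_cases haD : a ∈ C0 ∪ D
      · refine ⟨g, hg, ?_⟩
        intro i hi
        rw [Set.union_insert, Set.insert_eq_of_mem haD] at hi
        exact hgi i hi
      · set X := C0 ∪ D with hX
        have hXf : X.Finite := hC0f.union hD
        have him : g '' X = σ '' X := Set.image_congr hgi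
        have hsub : C0 ⊆ σ '' X := by
          intro i hi
          exact ⟨i, Or.inl hi, hσ i hi⟩
        have hclX : acl K (σ '' X) = σ '' X := by
          have h1 := hcl (σ '' X) (hXf.image _)
          rw [Set.union_eq_self_of_subset_left hsub] at h1
          exact h1
        have ha1 : g a ∉ acl K (σ '' X) := by
          rw [hclX, ← him]
          rintro ⟨b, hb, hba⟩
          rw [g.injective hba] at hb
          exact haD hb
        have ha2 : σ a ∉ acl K (σ '' X) := by
          rw [hclX]
          rintro ⟨b, hb, hba⟩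
          rw [σ.injective hba] at hb
          exact haD hb
        obtain ⟨t, ht, hta⟩ := (one_orbit hM (hXf.image σ)).2 (g a) (σ a) ha1 ha2
        refine ⟨t * g, K.mul_mem ht.1 hg, ?_⟩
        intro i hi
        rw [Set.union_insert] at hi
        rcases hi with rfl | hi
        · exact hta
        · rw [Equiv.Perm.mul_apply, hgi i hi]
          exact ht.2 _ ⟨i, hi, rfl⟩
  obtain ⟨g, hg, hgi⟩ := key (s : Set ℕ) s.finite_toSet
  exact ⟨g, hg, fun i hi => hgi i (Or.inr hi)⟩

/-- **PART EQV** -/
theorem s_eqv : S_STD → S_EQV := by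
  classical
  intro hSTD K hK hM hO
  have ho := oli_of hM
  obtain ⟨C, hCf, hCc, x0, hx0, hne⟩ : ∃ C : Set ℕ, C.Finite ∧ acl K C = C ∧ ∃ x, x ∉ C ∧
      acl K (insert x C) ≠ insert x C := by
    by_contra hcon
    push Not at hcon
    exact hO (opn_of hK hM fun C h1 h2 x hx => hcon C h1 h2 x hx)
  let cell : ℕ → Set ℕ := fun x => acl K (insert x C) \ C
  have hcf : ∀ x, (cell x).Finite := fun x =>
    (acl_finite ho (hCf.insert x)).subset Set.sdiff_subset
  have hself : ∀ x, x ∉ C → x ∈ cell x := fun x hx => ⟨subset_acl K _ (Set.mem_insert x C), hx⟩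
  have hCim : ∀ g ∈ st K C, g '' C = C := by
    intro g hg
    apply Set.Subset.antisymm
    · rintro _ ⟨i, hi, rfl⟩; rw [hg.2 i hi]; exact hi
    · intro i hi; exact ⟨i, hi, hg.2 i hi⟩
  have hconj : ∀ g ∈ st K C, ∀ x, g '' cell x = cell (g x) := by
    intro g hg x
    show g '' (acl K (insert x C) \ C) = acl K (insert (g x) C) \ C
    rw [Set.image_sdiff g.injective, acl_conj hg.1, Set.image_insert_eq, hCim g hg]
  have htr : ∀ x y, x ∉ C → y ∉ C → ∃ g ∈ st K C, g x = y := by
    intro x y hx hy
    have h := (one_orbit hM hCf).2 x y (by rw [hCc]; exact hx) (by rw [hCc]; exact hy)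
    exact h
  have hcard : ∀ x, x ∉ C → (cell x).ncard = (cell x0).ncard := by
    intro x hx
    obtain ⟨g, hg, rfl⟩ := htr x0 x hx0 hx
    rw [← hconj g hg x0, Set.ncard_image_of_injective _ g.injective]
  have hm2 : 2 ≤ (cell x0).ncard := by
    have h1 : ∃ y, y ∈ acl K (insert x0 C) ∧ y ∉ insert x0 C := by
      by_contra hcon
      push Not at hcon
      exact hne (Set.Subset.antisymm hcon (subset_acl K _))
    obtain ⟨y, hy1, hy2⟩ := h1
    have hy3 : y ≠ x0 := fun h => hy2 (Or.inl h)
    have hy4 : y ∉ C := fun h => hy2 (Or.inr h)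
    have h2 : ({x0, y} : Set ℕ) ⊆ cell x0 := by
      rintro z (rfl | rfl)
      · exact hself _ hx0
      · exact ⟨hy1, hy4⟩
    have h3 := Set.ncard_le_ncard h2 (hcf x0)
    rw [Set.ncard_pair (Ne.symm hy3)] at h3
    exact h3
  have hcell : ∀ x y, x ∉ C → y ∈ cell x → cell y = cell x := by
    intro x y hx hy
    have h1 : cell y ⊆ cell x := by
      refine Set.sdiff_subset_sdiff_left ?_
      have h2 : acl K (insert y C) ⊆ acl K (acl K (insert x C)) := by
        apply acl_mono
        rintro z (rfl | hz)
        · exact hy.1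
        · exact subset_acl K _ (Or.inr hz)
      rw [acl_acl ho (hCf.insert x)] at h2
      exact h2
    exact Set.eq_of_subset_of_ncard_le h1 (by rw [hcard x hx, hcard y hy.2]) (hcf x)
  let e : ℕ → Set ℕ := fun x => if x ∈ C then {x} else cell x
  have he1 : ∀ x ∈ C, e x = {x} := fun x hx => if_pos hx
  have he2 : ∀ x, x ∉ C → e x = cell x := fun x hx => if_neg hx
  have hes : ∀ x, x ∈ e x := by
    intro x
    by_cases hx : x ∈ C
    · rw [he1 x hx]; rfl
    · rw [he2 x hx]; exact hself x hx
  have hcl1 : ∀ x ∈ C, ∀ y, e y = e x → y = x := by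
    intro x hx y hy
    have h1 := hes y
    rw [hy, he1 x hx] at h1
    exact h1
  have hcl2 : ∀ x, x ∉ C → {y | e y = e x} = cell x := by
    intro x hx
    ext y
    constructor
    · intro hy
      have h1 := hes y
      rw [show e y = e x from hy, he2 x hx] at h1
      exact h1
    · intro hy
      show e y = e x
      rw [he2 x hx, he2 y hy.2]
      exact hcell x y hx hy
  have hsing : {x : ℕ | ∀ y, e y = e x → y = x} = C := by
    ext x
    constructor
    · intro h
      by_contra hx
      have h1 : cell x ⊆ {x} := by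
        intro y hy
        rw [← hcl2 x hx] at hy
        exact h y hy
      have h2 := Set.ncard_le_ncard h1 (Set.finite_singleton x)
      rw [Set.ncard_singleton, hcard x hx] at h2
      omega
    · intro hx; exact hcl1 x hx
  obtain ⟨α, hα⟩ := hSTD ℕ (Set ℕ) inferInstance inferInstance e C.ncard (cell x0).ncard hm2
    (by rw [hsing]; exact hCf) (by rw [hsing]) (by
      rintro x ⟨y, hy1, hy2⟩
      have hx : x ∉ C := fun hx => hy2 (hcl1 x hx y hy1)
      rw [hcl2 x hx, hcard x hx])
  refine ⟨C, hCf, C.ncard, (cell x0).ncard, hm2, α, ?_⟩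
  intro k hk
  have hke : ∀ x, e (k x) = k '' e x := by
    intro x
    by_cases hx : x ∈ C
    · have h1 : k x = x := hk.2 x hx
      rw [h1, he1 x hx, Set.image_singleton, h1]
    · have h1 : k x ∉ C := by
        intro h
        rw [← hCim k hk] at h
        obtain ⟨z, hz, hz'⟩ := h
        rw [k.injective hz'] at hz
        exact hx hz
      rw [he2 x hx, he2 (k x) h1, hconj k hk]
  rw [mem_NE]
  intro x y
  simp only [Equiv.Perm.mul_apply]
  rw [hα, hke, hke, (Set.image_injective.2 k.injective).eq_iff, ← hα]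
  have h1 : ∀ z, α ((α⁻¹ : Equiv.Perm ℕ) z) = z := fun z => by simp
  rw [h1, h1]

end Pool.Agent.L7h50.DU
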