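import Pool.Agent.L7h71.FP.Stm2

set_option autoImplicit false

/-!
Project DU, part STD: normal form of an equivalence relation with classes of equal size.
-/

namespace Pool.Agent.L7h50.DU

open Set
open Pool.Agent.L7h71.FP

theorem cls_small {r m n : ℕ} (h : n < r) (x : ℕ) : cls r m x = n ↔ x = n := by
  unfold cls
  split_ifs with hx
  · exact Iff.rfl
  · constructor
    · intro h'
      have := Nat.zero_le ((x - r) / m)
      generalize (x - r) / m = t at *
      omega
    · intro h'; omega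

theorem cls_large {r m n : ℕ} (hm : 0 < m) (h : ¬ n < r) (x : ℕ) :
    cls r m x = n ↔ x ∈ Finset.Ico (r + m * (n - r)) (r + m * (n - r) + m) := by
  unfold cls
  rw [Finset.mem_Ico]
  split_ifs with hx
  · constructor
    · intro h'; omega
    · rintro ⟨h1, h2⟩; omega
  · constructor
    · intro h'
      have h1 : (x - r) / m = n - r := by omega
      have h2 := Nat.div_add_mod (x - r) m
      have h3 := Nat.mod_lt (x - r) hm
      rw [h1] at h2
      omega
    · rintro ⟨h1, h2⟩
      have h3 : (x - r) / m = n - r := by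
        rw [Nat.div_eq_iff hm]
        constructor
        · rw [mul_comm]; omega
        · rw [mul_comm]; omega
      omega

theorem cls_ncard {r m : ℕ} (hm : 0 < m) (n : ℕ) :
    {x | cls r m x = n}.ncard = if n < r then 1 else m := by
  split_ifs with h
  · have : {x | cls r m x = n} = {n} := by
      ext x; exact cls_small h x
    rw [this, Set.ncard_singleton]
  · have : {x | cls r m x = n} =
        (Finset.Ico (r + m * (n - r)) (r + m * (n - r) + m) : Finset ℕ) := by
      ext x; exact cls_large hm h x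
    rw [this, Set.ncard_coe_finset, Nat.card_Ico]
    omega

theorem cls_finite {r m : ℕ} (hm : 0 < m) (n : ℕ) : {x | cls r m x = n}.Finite := by
  apply Set.finite_of_ncard_ne_zero
  rw [cls_ncard hm]
  split_ifs <;> omega

theorem eqc {α β : Type} [Finite α] [Finite β] (h : Nat.card α = Nat.card β) :
    Nonempty (α ≃ β) :=
  ⟨(Finite.equivFin α).trans ((finCongr h).trans (Finite.equivFin β).symm)⟩

/-- **PART STD** -/
theorem s_std : S_STD := by
  classical
  intro Ω ι _ _ e r m hm hfin hcard hcls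
  have hm0 : 0 < m := by omega
  let C := Set.range e
  let fb : C → Set Ω := fun c => {y | e y = c.1}
  let p : C → Prop := fun c => ∃ x, fb c = {x}
  have h1 : ∀ c, ¬ p c → (fb c).ncard = m := by
    rintro ⟨_, x, rfl⟩ hp
    apply hcls x
    by_contra hcon
    push Not at hcon
    refine hp ⟨x, ?_⟩
    ext y
    exact ⟨fun hy => hcon y hy, fun hy => by rw [Set.mem_singleton_iff] at hy; rw [hy]; rfl⟩
  have h2 : ∀ c, p c → (fb c).ncard = 1 := by
    rintro c ⟨x, hx⟩
    rw [hx, Set.ncard_singleton]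
  have hfb : ∀ c, (fb c).Finite := by
    intro c
    apply Set.finite_of_ncard_ne_zero
    by_cases hc : p c
    · rw [h2 c hc]; omega
    · rw [h1 c hc]; omega
  have hS : ∀ x : Ω, (∀ y, e y = e x → y = x) ↔ p ⟨e x, x, rfl⟩ := by
    intro x
    constructor
    · intro h
      refine ⟨x, ?_⟩
      ext y
      exact ⟨fun hy => h y hy, fun hy => by rw [Set.mem_singleton_iff] at hy; rw [hy]; rfl⟩
    · rintro ⟨z, hz⟩ y hy
      have hy' : y ∈ fb ⟨e x, x, rfl⟩ := hy
      have hx' : x ∈ fb ⟨e x, x, rfl⟩ := rfl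
      rw [hz, Set.mem_singleton_iff] at hy' hx'
      rw [hy', hx']
  -- the one-element classes
  have c1 : Nat.card {c // p c} = r := by
    rw [← hcard, ← Nat.card_coe_set_eq]
    refine (Nat.card_congr (Equiv.ofBijective (fun x : {x : Ω | ∀ y, e y = e x → y = x} =>
      (⟨⟨e x.1, x.1, rfl⟩, (hS x.1).1 x.2⟩ : {c // p c})) ⟨?_, ?_⟩)).symm
    · intro x y hxy
      have h := congrArg (fun c : {c // p c} => c.1.1) hxy
      exact (Subtype.ext (x.2 y.1 h.symm)).symm
    · rintro ⟨⟨_, x, rfl⟩, hc⟩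
      exact ⟨⟨x, (hS x).2 hc⟩, rfl⟩
  have f1 : Finite {c // p c} := by
    have hf : Finite {x : Ω | ∀ y, e y = e x → y = x} := hfin
    refine Finite.of_surjective (fun x : {x : Ω | ∀ y, e y = e x → y = x} =>
      (⟨⟨e x.1, x.1, rfl⟩, (hS x.1).1 x.2⟩ : {c // p c})) ?_
    rintro ⟨⟨_, x, rfl⟩, hc⟩
    exact ⟨⟨x, (hS x).2 hc⟩, rfl⟩
  have cnt : Countable C := Set.countable_range e
  -- the other classes
  have inf2 : Infinite {c // ¬ p c} := by
    by_contra hcon
    rw [not_infinite_iff_finite] at hcon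
    have hCf : Finite C := Finite.of_equiv _ (Equiv.sumCompl p)
    have : (Set.univ : Set Ω).Finite := by
      have hsub : (Set.univ : Set Ω) ⊆ ⋃ c : C, fb c := by
        intro x _
        exact Set.mem_iUnion.2 ⟨⟨e x, x, rfl⟩, rfl⟩
      exact (Set.finite_iUnion hfb).subset hsub
    exact Set.infinite_univ this
  have f3 : Finite {n : ℕ // n < r} := (Set.finite_lt_nat r)
  have c3 : Nat.card {n : ℕ // n < r} = r := by
    have h := Nat.card_coe_set_eq (Set.Iio r)
    rw [Set.ncard_eq_toFinset_card', Set.toFinset_Iio, Nat.card_Iio] at h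
    exact h
  have inf4 : Infinite {n : ℕ // ¬ n < r} := by
    have : ({n : ℕ | ¬ n < r} : Set ℕ).Infinite := by
      have := (Set.finite_lt_nat r).infinite_compl
      exact this
    exact this.to_subtype
  obtain ⟨E1⟩ : Nonempty ({c // p c} ≃ {n : ℕ // n < r}) := eqc (c1.trans c3.symm)
  obtain ⟨E2⟩ := nonempty_equiv_of_countable (α := {c // ¬ p c}) (β := {n : ℕ // ¬ n < r})
  let Φ : C ≃ ℕ := (Equiv.sumCompl p).symm.trans ((Equiv.sumCongr E1 E2).trans
    (Equiv.sumCompl (fun n : ℕ => n < r)))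
  have hΦ : ∀ c, Φ c < r ↔ p c := by
    intro c
    by_cases hc : p c
    · have : Φ c = (E1 ⟨c, hc⟩).1 := by
        simp [Φ, Equiv.sumCompl_symm_apply_of_pos hc]
      rw [this]
      exact iff_of_true (E1 ⟨c, hc⟩).2 hc
    · have : Φ c = (E2 ⟨c, hc⟩).1 := by
        simp [Φ, Equiv.sumCompl_symm_apply_of_neg hc]
      rw [this]
      exact iff_of_false (E2 ⟨c, hc⟩).2 hc
  have hF : ∀ c : C, Nonempty ({x : Ω // (⟨e x, x, rfl⟩ : C) = c} ≃
      {x : ℕ // cls r m x = Φ c}) := by
    intro c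
    have g1 : Nonempty ({x : Ω // (⟨e x, x, rfl⟩ : C) = c} ≃ fb c) :=
      ⟨Equiv.subtypeEquivRight (fun x => Subtype.ext_iff)⟩
    have g2 : Finite (fb c) := hfb c
    have g3 : Finite {x : ℕ // cls r m x = Φ c} := cls_finite hm0 _
    obtain ⟨g1⟩ := g1
    suffices hs : Nat.card (fb c) = Nat.card {x : ℕ // cls r m x = Φ c} by
      obtain ⟨g4⟩ := eqc hs
      exact ⟨g1.trans g4⟩
    rw [Nat.card_coe_set_eq]
    have h5 : Nat.card {x : ℕ // cls r m x = Φ c} = {x | cls r m x = Φ c}.ncard :=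
      Nat.card_coe_set_eq _
    rw [h5, cls_ncard hm0]
    by_cases hc : p c
    · rw [h2 c hc, if_pos ((hΦ c).2 hc)]
    · rw [h1 c hc, if_neg (fun h => hc ((hΦ c).1 h))]
  let F := fun c => (hF c).some
  let α : Ω ≃ ℕ := (Equiv.sigmaFiberEquiv (fun x : Ω => (⟨e x, x, rfl⟩ : C))).symm.trans
    ((Equiv.sigmaCongr Φ F).trans (Equiv.sigmaFiberEquiv (cls r m)))
  have hα : ∀ x, cls r m (α x) = Φ ⟨e x, x, rfl⟩ := by
    intro x
    exact (F ⟨e x, x, rfl⟩ ⟨x, rfl⟩).2
  refine ⟨α, fun x y => ?_⟩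
  rw [hα, hα, Φ.injective.eq_iff]
  exact Subtype.ext_iff

end Pool.Agent.L7h50.DU
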