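import Pool.Agent.L7h71.FP.Stm2
import Pool.Agent.L7h50.DU.Std

set_option autoImplicit false

/-!
Project DU, part TWO: perfectly many double cosets of the automorphism groups of two standard
equivalence relations.
-/

namespace Pool.Agent.L7h50.DU.Two

open Set
open Pool.Agent.L7h71.FP

/-! ## Classes of the standard relation -/

theorem cls_mono {r m x y : ℕ} (h : x ≤ y) : cls r m x ≤ cls r m y := by
  unfold cls
  split_ifs with h1 h2 h2
  · exact h
  · have := Nat.zero_le ((y - r) / m)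
    generalize (y - r) / m = t at *
    omega
  · omega
  · have := Nat.div_le_div_right (c := m) (Nat.sub_le_sub_right h r)
    omega

theorem cls_add {r m x : ℕ} (hm : 0 < m) (hx : r ≤ x) (q : ℕ) :
    cls r m (x + m * q) = cls r m x + q := by
  unfold cls
  rw [if_neg (by omega), if_neg (by omega)]
  have h1 : x + m * q - r = (x - r) + m * q := by omega
  rw [h1, Nat.add_mul_div_left _ _ hm]
  omega

theorem clo_NE (r m : ℕ) : Clo (NE r m) := by
  intro g hg
  rw [mem_NE]
  intro x y
  obtain ⟨h, hh, hi⟩ := hg {x, y}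
  rw [← hi x (by simp), ← hi y (by simp)]
  exact (mem_NE.1 hh) x y

/-- sets closed under two functions -/
def Cl {Ω ι κ : Type} (e : Ω → ι) (f : Ω → κ) (Y : Set Ω) : Prop :=
  (∀ x ∈ Y, ∀ y, e y = e x → y ∈ Y) ∧ ∀ x ∈ Y, ∀ y, f y = f x → y ∈ Y

/-- minimal nonempty closed sets -/
def Mi {Ω ι κ : Type} (e : Ω → ι) (f : Ω → κ) (Y : Set Ω) : Prop :=
  Cl e f Y ∧ Y.Nonempty ∧ ∀ Z, Z ⊆ Y → Z.Nonempty → Cl e f Z → Z = Y

theorem Cl.inter {Ω ι κ : Type} {e : Ω → ι} {f : Ω → κ} {Y Z : Set Ω} (hY : Cl e f Y)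
    (hZ : Cl e f Z) : Cl e f (Y ∩ Z) :=
  ⟨fun x hx y hy => ⟨hY.1 x hx.1 y hy, hZ.1 x hx.2 y hy⟩,
    fun x hx y hy => ⟨hY.2 x hx.1 y hy, hZ.2 x hx.2 y hy⟩⟩

theorem Mi.sub {Ω ι κ : Type} {e : Ω → ι} {f : Ω → κ} {Y Z : Set Ω} (hY : Mi e f Y)
    (hZ : Cl e f Z) {x : Ω} (hx : x ∈ Y) (hx' : x ∈ Z) : Y ⊆ Z := by
  have h1 := hY.2.2 (Y ∩ Z) Set.inter_subset_left ⟨x, hx, hx'⟩ (hY.1.inter hZ)
  intro y hy
  rw [← h1] at hy
  exact hy.2

/-- transport by a bijection -/
theorem Mi.image {Ω ι κ : Type} {e : Ω → ι} {f f' : Ω → κ} (h : Ω ≃ Ω)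
    (h1 : ∀ x y, e (h x) = e (h y) ↔ e x = e y) (h2 : ∀ x y, f' (h x) = f' (h y) ↔ f x = f y)
    {Y : Set Ω} (hY : Mi e f Y) : Mi e f' (h '' Y) := by
  have hcl : ∀ Z : Set Ω, Cl e f' (h '' Z) ↔ Cl e f Z := by
    intro Z
    constructor
    · rintro ⟨c1, c2⟩
      constructor
      · intro x hx y hy
        obtain ⟨z, hz, hz'⟩ := c1 (h x) ⟨x, hx, rfl⟩ (h y) ((h1 y x).2 hy)
        rw [← h.injective hz']; exact hz
      · intro x hx y hy
        obtain ⟨z, hz, hz'⟩ := c2 (h x) ⟨x, hx, rfl⟩ (h y) ((h2 y x).2 hy)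
        rw [← h.injective hz']; exact hz
    · rintro ⟨c1, c2⟩
      constructor
      · rintro _ ⟨x, hx, rfl⟩ y hy
        obtain ⟨y, rfl⟩ := h.surjective y
        exact ⟨y, c1 x hx y ((h1 y x).1 hy), rfl⟩
      · rintro _ ⟨x, hx, rfl⟩ y hy
        obtain ⟨y, rfl⟩ := h.surjective y
        exact ⟨y, c2 x hx y ((h2 y x).1 hy), rfl⟩
  refine ⟨(hcl Y).2 hY.1, hY.2.1.image _, ?_⟩
  intro Z hZ hZn hZc
  have hZe : h '' (h ⁻¹' Z) = Z := Set.image_preimage_eq _ h.surjective
  rw [← hZe] at hZc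
  have h3 := hY.2.2 (h ⁻¹' Z) (by
    intro x hx
    obtain ⟨y, hy, hy'⟩ := hZ hx
    rw [← h.injective hy']; exact hy) (by
    obtain ⟨z, hz⟩ := hZn
    obtain ⟨x, rfl⟩ := h.surjective z
    exact ⟨x, hz⟩) ((hcl _).1 hZc)
  rw [← hZe, h3]

/-! ## The bound for finite minimal closed sets of two standard relations -/

theorem bound {r m r' m' : ℕ} (hm : 0 < m) (hm' : 0 < m') {Y : Set ℕ} (hf : Y.Finite)
    (hY : Mi (cls r m) (cls r' m') Y) : Y.ncard ≤ r + r' + m * m' := by
  obtain ⟨x, hx, hmax⟩ : ∃ x ∈ Y, ∀ y ∈ Y, y ≤ x := by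
    obtain ⟨x, hx, hmax⟩ := Set.exists_max_image Y id hf hY.2.1
    exact ⟨x, hx, hmax⟩
  have hpos : 0 < m * m' := Nat.mul_pos hm hm'
  by_cases hsm : x + 1 ≤ r + r' + m * m'
  · have h1 : Y ⊆ (Finset.range (x + 1) : Finset ℕ) := by
      intro y hy
      have := hmax y hy
      rw [Finset.coe_range]
      exact Nat.lt_succ_of_le this
    have h2 := Set.ncard_le_ncard h1 (Finset.finite_toSet _)
    rw [Set.ncard_coe_finset, Finset.card_range] at h2
    omega
  · -- a cut
    obtain ⟨t, ht⟩ : ∃ t, x = t + m * m' := ⟨x - m * m', by omega⟩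
    have ht1 : r ≤ t := by omega
    have ht2 : r' ≤ t := by omega
    have hcut1 : cls r m t ≠ cls r m (t + 1) := by
      intro h
      have h1 : cls r m (x + 1) = cls r m x := by
        rw [ht, show t + m * m' + 1 = (t + 1) + m * m' by ring, cls_add hm (by omega),
          cls_add hm ht1, h]
      have := hmax _ (hY.1.1 x hx (x + 1) h1)
      omega
    have hcut2 : cls r' m' t ≠ cls r' m' (t + 1) := by
      intro h
      have h1 : cls r' m' (x + 1) = cls r' m' x := by
        rw [ht, show t + m * m' + 1 = (t + 1) + m' * m by ring,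
          show t + m * m' = t + m' * m by ring, cls_add hm' (by omega),
          cls_add hm' ht2, h]
      have := hmax _ (hY.1.2 x hx (x + 1) h1)
      omega
    have hcl : Cl (cls r m) (cls r' m') {y | t + 1 ≤ y} := by
      constructor
      · intro y hy z hz
        by_contra hcon
        have hz' : z ≤ t := by
          have : ¬ (t + 1 ≤ z) := hcon
          omega
        have h1 := cls_mono (r := r) (m := m) hz'
        have h2 := cls_mono (r := r) (m := m) (show t ≤ t + 1 by omega)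
        have h3 := cls_mono (r := r) (m := m) (show t + 1 ≤ y from hy)
        exact hcut1 (by omega)
      · intro y hy z hz
        by_contra hcon
        have hz' : z ≤ t := by
          have : ¬ (t + 1 ≤ z) := hcon
          omega
        have h1 := cls_mono (r := r') (m := m') hz'
        have h2 := cls_mono (r := r') (m := m') (show t ≤ t + 1 by omega)
        have h3 := cls_mono (r := r') (m := m') (show t + 1 ≤ y from hy)
        exact hcut2 (by omega)
    have hsub := hY.sub hcl hx (show t + 1 ≤ x by omega)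
    have h1 : Y ⊆ (Finset.Ico (t + 1) (x + 1) : Finset ℕ) := by
      intro y hy
      rw [Finset.coe_Ico]
      exact ⟨hsub hy, Nat.lt_succ_of_le (hmax y hy)⟩
    have h2 := Set.ncard_le_ncard h1 (Finset.finite_toSet _)
    rw [Set.ncard_coe_finset, Nat.card_Ico] at h2
    omega

/-! ## The structures -/

/-- the blocks -/
abbrev Bl : Type := Σ n : ℕ, Fin (n + 2)

/-- the second summand -/
abbrev Ga (M M' : ℕ) : Type := Bl × Fin (M + 2) × Fin (M' + 2)

/-- the points -/
abbrev Om (M M' : ℕ) : Type := ℕ ⊕ Ga M M'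

section

variable {M M' : ℕ}

/-- rotation of the corners of the blocks -/
def ro (c : ℕ → Bool) : Ga M M' ≃ Ga M M' where
  toFun z := if c z.1.1 = true ∧ z.2.1 = 0 ∧ z.2.2 = 0 then (⟨z.1.1, z.1.2 + 1⟩, z.2) else z
  invFun z := if c z.1.1 = true ∧ z.2.1 = 0 ∧ z.2.2 = 0 then (⟨z.1.1, z.1.2 - 1⟩, z.2) else z
  left_inv := by
    rintro ⟨⟨n, i⟩, a, b⟩
    by_cases h : c n = true ∧ a = 0 ∧ b = 0
    · dsimp only
      rw [if_pos h]
      dsimp only
      rw [if_pos h, add_sub_cancel_right]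
    · dsimp only
      rw [if_neg h]
      dsimp only
      rw [if_neg h]
  right_inv := by
    rintro ⟨⟨n, i⟩, a, b⟩
    by_cases h : c n = true ∧ a = 0 ∧ b = 0
    · dsimp only
      rw [if_pos h]
      dsimp only
      rw [if_pos h, sub_add_cancel]
    · dsimp only
      rw [if_neg h]
      dsimp only
      rw [if_neg h]

/-- the permutation of all points -/
def pe (c : ℕ → Bool) : Om M M' ≃ Om M M' := Equiv.sumCongr (Equiv.refl ℕ) (ro c)

/-- the first relation -/
def e1 (r : ℕ) : Om M M' → ℕ ⊕ (Bl × Fin (M' + 2)) :=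
  Sum.map (cls r (M + 2)) (fun z => (z.1, z.2.2))

/-- the second relation, before the permutation -/
def e2 (r' : ℕ) : Om M M' → ℕ ⊕ (Bl × Fin (M + 2)) :=
  Sum.map (cls r' (M' + 2)) (fun z => (z.1, z.2.1))

/-- the second relation -/
def fc (r' : ℕ) (c : ℕ → Bool) (x : Om M M') : ℕ ⊕ (Bl × Fin (M + 2)) :=
  e2 r' ((pe c).symm x)

/-- the number of the group of blocks -/
def nn : Om M M' → Option ℕ
  | Sum.inl _ => none
  | Sum.inr z => some z.1.1

/-- the block -/
def jj : Om M M' → Option Bl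
  | Sum.inl _ => none
  | Sum.inr z => some z.1

theorem nn_of_jj {x y : Om M M'} (h : jj x = jj y) : nn x = nn y := by
  rcases x with x | x <;> rcases y with y | y
  · rfl
  · simp [jj] at h
  · simp [jj] at h
  · simp only [jj, Option.some.injEq] at h
    simp only [nn, h]

theorem jj_e1 {r : ℕ} {x y : Om M M'} (h : e1 r y = e1 r x) : jj y = jj x := by
  rcases x with x | x <;> rcases y with y | y
  · rfl
  · simp [e1] at h
  · simp [e1] at h
  · simp only [e1, Sum.map_inr, Sum.inr.injEq, Prod.mk.injEq] at h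
    simp only [jj, h.1]

theorem jj_e2 {r : ℕ} {x y : Om M M'} (h : e2 r y = e2 r x) : jj y = jj x := by
  rcases x with x | x <;> rcases y with y | y
  · rfl
  · simp [e2] at h
  · simp [e2] at h
  · simp only [e2, Sum.map_inr, Sum.inr.injEq, Prod.mk.injEq] at h
    simp only [jj, h.1]

theorem nn_pe (c : ℕ → Bool) (x : Om M M') : nn ((pe c).symm x) = nn x := by
  rcases x with x | ⟨⟨n, i⟩, a, b⟩
  · rfl
  · show nn (Sum.inr ((ro c).symm (⟨n, i⟩, a, b))) = _
    by_cases h : c n = true ∧ a = 0 ∧ b = 0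
    · simp [ro, nn, h]
    · simp [ro, nn, h]

theorem pe_false {c : ℕ → Bool} {n : ℕ} (hn : c n = false) {x : Om M M'} (hx : nn x = some n) :
    (pe c).symm x = x := by
  rcases x with x | ⟨⟨n', i⟩, a, b⟩
  · rfl
  · simp only [nn, Option.some.injEq] at hx
    subst hx
    show Sum.inr ((ro c).symm (⟨n', i⟩, a, b)) = _
    simp [ro, hn]

theorem cl_nn (r r' : ℕ) (c : ℕ → Bool) (o : Option ℕ) :
    Cl (e1 r) (fc r' c) {x : Om M M' | nn x = o} := by
  constructor
  · intro x hx y hy
    exact (nn_of_jj (jj_e1 hy)).trans hx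
  · intro x hx y hy
    have h1 := nn_of_jj (jj_e2 hy)
    rw [nn_pe, nn_pe] at h1
    exact h1.trans hx

theorem cl_jj (r r' : ℕ) {c : ℕ → Bool} {n : ℕ} (hn : c n = false) (i : Fin (n + 2)) :
    Cl (e1 r) (fc r' c) {x : Om M M' | jj x = some ⟨n, i⟩} := by
  constructor
  · intro x hx y hy
    exact (jj_e1 hy).trans hx
  · intro x hx y hy
    have hx1 : nn x = some n := by
      rw [nn_of_jj (show jj x = jj (Sum.inr (⟨n, i⟩, 0, 0) : Om M M') from hx)]; rfl
    have h1 := nn_of_jj (jj_e2 hy)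
    rw [nn_pe, nn_pe] at h1
    have hy1 : nn y = some n := h1.trans hx1
    have h2 := jj_e2 hy
    rw [pe_false hn hx1, pe_false hn hy1] at h2
    exact h2.trans hx

theorem fin_ind {n : ℕ} (P : Fin (n + 2) → Prop) (h : ∀ i, P i → P (i + 1)) {i0 : Fin (n + 2)}
    (h0 : P i0) (i : Fin (n + 2)) : P i := by
  have key : ∀ k : ℕ, P (Fin.ofNat (n + 2) (i0.val + k)) := by
    intro k
    induction k with
    | zero =>
      have : Fin.ofNat (n + 2) (i0.val + 0) = i0 := by
        ext; simp
      rw [this]; exact h0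
    | succ k ih =>
      have : Fin.ofNat (n + 2) (i0.val + (k + 1)) = Fin.ofNat (n + 2) (i0.val + k) + 1 := by
        ext
        simp [Fin.val_add, ← add_assoc]
      rw [this]
      exact h _ ih
  have h1 := key (i.val + (n + 2) - i0.val)
  have : Fin.ofNat (n + 2) (i0.val + (i.val + (n + 2) - i0.val)) = i := by
    ext
    have h2 : i0.val + (i.val + (n + 2) - i0.val) = i.val + (n + 2) := by
      have := i0.isLt
      omega
    rw [h2]
    simp [Nat.mod_eq_of_lt i.isLt]
  rw [this] at h1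
  exact h1

theorem mi_nn (r r' : ℕ) {c : ℕ → Bool} {n : ℕ} (hn : c n = true) :
    Mi (e1 r) (fc r' c) {x : Om M M' | nn x = some n} := by
  refine ⟨cl_nn r r' c _, ⟨Sum.inr (⟨n, 0⟩, 0, 0), rfl⟩, ?_⟩
  rintro Z hZ ⟨x, hx⟩ ⟨c1, c2⟩
  have hfc : ∀ (i : Fin (n + 2)) (a : Fin (M + 2)) (b : Fin (M' + 2)), ¬ (a = 0 ∧ b = 0) →
      fc r' c (Sum.inr (⟨n, i⟩, a, b) : Om M M') = Sum.inr (⟨n, i⟩, a) := by
    intro i a b hab
    show e2 r' (Sum.inr ((ro c).symm (⟨n, i⟩, a, b)) : Om M M') = _
    have : (ro c).symm ((⟨n, i⟩, a, b) : Ga M M') = (⟨n, i⟩, a, b) := by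
      show (if c n = true ∧ a = 0 ∧ b = 0 then _ else _) = _
      rw [if_neg (fun h => hab h.2)]
    rw [this]; rfl
  have hfc0 : ∀ (i : Fin (n + 2)),
      fc r' c (Sum.inr (⟨n, i + 1⟩, 0, 0) : Om M M') = Sum.inr (⟨n, i⟩, 0) := by
    intro i
    show e2 r' (Sum.inr ((ro c).symm (⟨n, i + 1⟩, 0, 0)) : Om M M') = _
    have : (ro c).symm ((⟨n, i + 1⟩, 0, 0) : Ga M M') = (⟨n, i⟩, 0, 0) := by
      show (if c n = true ∧ (0 : Fin (M + 2)) = 0 ∧ (0 : Fin (M' + 2)) = 0 then _ else _) = _
      rw [if_pos ⟨hn, rfl, rfl⟩]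
      simp
    rw [this]; rfl
  have hrow : ∀ (i : Fin (n + 2)) (a a' : Fin (M + 2)) (b : Fin (M' + 2)),
      (Sum.inr (⟨n, i⟩, a, b) : Om M M') ∈ Z → (Sum.inr (⟨n, i⟩, a', b) : Om M M') ∈ Z :=
    fun i a a' b h => c1 _ h _ rfl
  have hblock : ∀ (i : Fin (n + 2)) (a a' : Fin (M + 2)) (b b' : Fin (M' + 2)),
      (Sum.inr (⟨n, i⟩, a, b) : Om M M') ∈ Z → (Sum.inr (⟨n, i⟩, a', b') : Om M M') ∈ Z := by
    intro i a a' b b' h
    have h1 := hrow i a 1 b h
    have h2 : (Sum.inr (⟨n, i⟩, 1, b') : Om M M') ∈ Z :=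
      c2 _ h1 _ (by rw [hfc i 1 b' (by simp), hfc i 1 b (by simp)])
    exact hrow i 1 a' b' h2
  have hstep : ∀ i : Fin (n + 2), (Sum.inr (⟨n, i⟩, 0, 0) : Om M M') ∈ Z →
      (Sum.inr (⟨n, i + 1⟩, 0, 0) : Om M M') ∈ Z := by
    intro i h
    have h1 := hblock i 0 0 0 1 h
    exact c2 _ h1 _ (by rw [hfc0 i, hfc i 0 1 (by simp)])
  have hx' := hZ hx
  rcases x with x | ⟨⟨n', i⟩, a, b⟩
  · simp [nn] at hx'
  · simp only [nn, mem_ofPred_eq, Option.some.injEq] at hx'
    subst hx'
    have h0 := hblock i a 0 b 0 hx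
    have hall := fin_ind (fun i => (Sum.inr (⟨n', i⟩, 0, 0) : Om M M') ∈ Z) hstep h0
    apply Set.Subset.antisymm hZ
    intro y hy
    rcases y with y | ⟨⟨n'', i'⟩, a', b'⟩
    · simp [nn] at hy
    · simp only [nn, mem_ofPred_eq, Option.some.injEq] at hy
      subst hy
      exact hblock i' 0 a' 0 b' (hall i')

theorem ncard_nn (n : ℕ) : {x : Om M M' | nn x = some n}.ncard = (n + 2) * ((M + 2) * (M' + 2)) := by
  have h1 : {x : Om M M' | nn x = some n} = Set.range
      (fun z : Fin (n + 2) × Fin (M + 2) × Fin (M' + 2) =>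
        (Sum.inr (⟨n, z.1⟩, z.2.1, z.2.2) : Om M M')) := by
    ext x
    constructor
    · intro hx
      rcases x with x | ⟨⟨n', i⟩, a, b⟩
      · simp [nn] at hx
      · simp only [nn, mem_ofPred_eq, Option.some.injEq] at hx
        subst hx
        exact ⟨(i, a, b), rfl⟩
    · rintro ⟨z, rfl⟩; rfl
  rw [h1, ← Nat.card_coe_set_eq, Nat.card_range_of_injective]
  · simp
  · rintro ⟨i, a, b⟩ ⟨i', a', b'⟩ h
    simpa using h

theorem ncard_jj (j : Bl) : {x : Om M M' | jj x = some j}.ncard = (M + 2) * (M' + 2) := by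
  have h1 : {x : Om M M' | jj x = some j} = Set.range
      (fun z : Fin (M + 2) × Fin (M' + 2) => (Sum.inr (j, z.1, z.2) : Om M M')) := by
    ext x
    constructor
    · intro hx
      rcases x with x | ⟨j', a, b⟩
      · simp [jj] at hx
      · simp only [jj, mem_ofPred_eq, Option.some.injEq] at hx
        subst hx
        exact ⟨(a, b), rfl⟩
    · rintro ⟨z, rfl⟩; rfl
  rw [h1, ← Nat.card_coe_set_eq, Nat.card_range_of_injective]
  · simp
  · rintro ⟨a, b⟩ ⟨a', b'⟩ h
    simpa using h

/-- an isomorphism between the structures of `c` and `d` determines the large values -/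
theorem det {r r' : ℕ} {c d : ℕ → Bool} (h : Om M M' ≃ Om M M')
    (h1 : ∀ x y, e1 r (h x) = e1 r (h y) ↔ e1 r x = e1 r y)
    (h2 : ∀ x y, fc r' d (h x) = fc r' d (h y) ↔ fc r' c x = fc r' c y) {n : ℕ}
    (hn : r + r' ≤ n) (hc : c n = true) : d n = true := by
  have hY := (mi_nn (M := M) (M' := M') r r' hc).image h h1 h2
  set Y := h '' {x : Om M M' | nn x = some n} with hYdef
  have hcard : Y.ncard = (n + 2) * ((M + 2) * (M' + 2)) := by
    rw [hYdef, Set.ncard_image_of_injective _ h.injective, ncard_nn]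
  have hpos : 0 < (M + 2) * (M' + 2) := by positivity
  have hYf : Y.Finite := by
    apply Set.finite_of_ncard_ne_zero
    rw [hcard]; positivity
  obtain ⟨y, hy⟩ := hY.2.1
  rcases hnn : nn y with _ | n'
  · -- the first summand
    exfalso
    have hsub : Y ⊆ {x | nn x = none} := hY.sub (cl_nn r r' d none) hy hnn
    set Y' : Set ℕ := {x | (Sum.inl x : Om M M') ∈ Y} with hY'
    have hYY : Y = Sum.inl '' Y' := by
      ext x
      constructor
      · intro hx
        rcases x with x | x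
        · exact ⟨x, hx, rfl⟩
        · have := hsub hx; simp [nn] at this
      · rintro ⟨x, hx, rfl⟩; exact hx
    have hY'c : Y'.ncard = Y.ncard := by
      rw [hYY, Set.ncard_image_of_injective _ Sum.inl_injective]
    have hY'f : Y'.Finite := by
      apply Set.finite_of_ncard_ne_zero
      rw [hY'c, hcard]; positivity
    have hmi : Mi (cls r (M + 2)) (cls r' (M' + 2)) Y' := by
      have ecl : ∀ Z : Set ℕ, Cl (cls r (M + 2)) (cls r' (M' + 2)) Z →
          Cl (e1 r) (fc r' d) (Sum.inl '' Z : Set (Om M M')) := by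
        rintro Z ⟨c1, c2⟩
        constructor
        · rintro _ ⟨x, hx, rfl⟩ y hy
          rcases y with y | y
          · exact ⟨y, c1 x hx y (by simpa [e1] using hy), rfl⟩
          · simp [e1] at hy
        · rintro _ ⟨x, hx, rfl⟩ y hy
          rcases y with y | y
          · refine ⟨y, c2 x hx y ?_, rfl⟩
            have hy' : e2 r' (Sum.inl y : Om M M') = e2 r' (Sum.inl x : Om M M') := hy
            simpa [e2] using hy'
          · have hy' : e2 r' (Sum.inr ((ro d).symm y) : Om M M') =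
              e2 r' (Sum.inl x : Om M M') := hy
            simp [e2] at hy'
      refine ⟨⟨?_, ?_⟩, ?_, ?_⟩
      · intro x hx y hy
        exact hY.1.1 _ hx _ (by simp [e1, hy])
      · intro x hx y hy
        refine hY.1.2 _ hx _ ?_
        show e2 r' (Sum.inl y : Om M M') = e2 r' (Sum.inl x : Om M M')
        simp [e2, hy]
      · rcases y with y | y
        · exact ⟨y, hy⟩
        · simp [nn] at hnn
      · intro Z hZ hZn hZc
        have h3 := hY.2.2 (Sum.inl '' Z) (by
          rw [hYY]; exact Set.image_mono hZ) (hZn.image _) (ecl Z hZc)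
        rw [hYY] at h3
        exact Sum.inl_injective.image_injective h3
    have hb := bound (by omega) (by omega) hY'f hmi
    rw [hY'c, hcard] at hb
    have : (n + 2) * ((M + 2) * (M' + 2)) = (n + 1) * ((M + 2) * (M' + 2)) +
      (M + 2) * (M' + 2) := by ring
    have h5 : n + 1 ≤ (n + 1) * ((M + 2) * (M' + 2)) := Nat.le_mul_of_pos_right _ hpos
    omega
  · -- the second summand
    have hsub : Y ⊆ {x | nn x = some n'} := hY.sub (cl_nn r r' d _) hy hnn
    cases hd : d n' with
    | true =>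
      have h3 : {x : Om M M' | nn x = some n'} ⊆ Y :=
        (mi_nn (M := M) (M' := M') r r' hd).sub hY.1 hnn hy
      have h4 : Y = {x | nn x = some n'} := Set.Subset.antisymm hsub h3
      rw [h4, ncard_nn] at hcard
      have h5 := Nat.eq_of_mul_eq_mul_right hpos hcard
      have h6 : n' = n := by omega
      rw [← h6]; exact hd
    | false =>
      exfalso
      rcases y with y | ⟨⟨n'', i⟩, a, b⟩
      · simp [nn] at hnn
      · simp only [nn, Option.some.injEq] at hnn
        subst hnn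
        have h3 : Y ⊆ {x | jj x = some ⟨n'', i⟩} := hY.sub (cl_jj r r' hd i) hy rfl
        have h4 := Set.ncard_le_ncard h3 (by
          apply Set.finite_of_ncard_ne_zero
          rw [ncard_jj]; positivity)
        rw [ncard_jj, hcard] at h4
        nlinarith

end

/-- normal form for the sum of a standard relation and a relation with classes of size `m` -/
theorem std_sum (hSTD : S_STD) {Γ κ : Type} [Countable Γ] (u : Γ → κ) (r m : ℕ) (hm : 2 ≤ m)
    (hu : ∀ z, {y | u y = u z}.ncard = m) : ∃ α : ℕ ⊕ Γ ≃ ℕ, ∀ x y,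
      cls r m (α x) = cls r m (α y) ↔ Sum.map (cls r m) u x = Sum.map (cls r m) u y := by
  have c1 : ∀ x : ℕ, {y : ℕ ⊕ Γ | Sum.map (cls r m) u y = Sum.map (cls r m) u (Sum.inl x)} =
      Sum.inl '' {y | cls r m y = cls r m x} := by
    intro x
    ext y
    rcases y with y | y
    · simp
    · simp
  have c2 : ∀ z : Γ, {y : ℕ ⊕ Γ | Sum.map (cls r m) u y = Sum.map (cls r m) u (Sum.inr z)} =
      Sum.inr '' {y | u y = u z} := by
    intro x
    ext y
    rcases y with y | y
    · simp
    · simp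
  have n1 : ∀ x : ℕ, {y : ℕ ⊕ Γ | Sum.map (cls r m) u y = Sum.map (cls r m) u (Sum.inl x)}.ncard =
      if x < r then 1 else m := by
    intro x
    rw [c1, Set.ncard_image_of_injective _ Sum.inl_injective, cls_ncard (by omega)]
    by_cases hx : x < r
    · have : cls r m x = x := if_pos hx
      rw [this]
    · have : ¬ cls r m x < r := by
        have h1 : cls r m x = r + (x - r) / m := if_neg hx
        rw [h1]
        exact not_lt.2 (Nat.le_add_right _ _)
      rw [if_neg this, if_neg hx]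
  have n2 : ∀ z : Γ, {y : ℕ ⊕ Γ | Sum.map (cls r m) u y = Sum.map (cls r m) u (Sum.inr z)}.ncard =
      m := by
    intro z
    rw [c2, Set.ncard_image_of_injective _ Sum.inr_injective, hu]
  have hsing : {x : ℕ ⊕ Γ | ∀ y, Sum.map (cls r m) u y = Sum.map (cls r m) u x → y = x} =
      Sum.inl '' (Finset.range r : Finset ℕ) := by
    have key : ∀ x : ℕ ⊕ Γ, (∀ y, Sum.map (cls r m) u y = Sum.map (cls r m) u x → y = x) →
        {y : ℕ ⊕ Γ | Sum.map (cls r m) u y = Sum.map (cls r m) u x}.ncard = 1 := by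
      intro x hx
      have : {y : ℕ ⊕ Γ | Sum.map (cls r m) u y = Sum.map (cls r m) u x} = {x} := by
        ext y
        exact ⟨fun h => hx y h, fun h => by rw [Set.mem_singleton_iff] at h; rw [h]; rfl⟩
      rw [this, Set.ncard_singleton]
    ext x
    rcases x with x | x
    · constructor
      · intro h
        have h1 := key _ h
        rw [n1] at h1
        refine ⟨x, ?_, rfl⟩
        by_contra hcon
        rw [Finset.coe_range, Set.mem_Iio] at hcon
        rw [if_neg hcon] at h1
        omega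
      · rintro ⟨x', hx', he⟩ y hy
        rw [Sum.inl.injEq] at he
        subst he
        rw [Finset.coe_range, Set.mem_Iio] at hx'
        rcases y with y | y
        · have h2 : cls r m y = cls r m x' := by simpa using hy
          have h3 : cls r m x' = x' := if_pos hx'
          rw [h3, cls_small hx'] at h2
          rw [h2]
        · simp at hy
    · constructor
      · intro h
        have h1 := key _ h
        rw [n2] at h1
        omega
      · rintro ⟨x', -, he⟩
        simp at he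
  refine hSTD (ℕ ⊕ Γ) (ℕ ⊕ κ) inferInstance inferInstance (Sum.map (cls r m) u) r m hm ?_ ?_ ?_
  · rw [hsing]; exact (Finset.finite_toSet _).image _
  · rw [hsing, Set.ncard_image_of_injective _ Sum.inl_injective, Set.ncard_coe_finset,
      Finset.card_range]
  · rintro x ⟨y, hy1, hy2⟩
    rcases x with x | x
    · rw [n1]
      by_cases hx : x < r
      · exfalso
        have h1 : x ∈ (Finset.range r : Finset ℕ) := Finset.mem_range.2 hx
        have h2 : (Sum.inl x : ℕ ⊕ Γ) ∈ {x : ℕ ⊕ Γ | ∀ y, Sum.map (cls r m) u y =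
            Sum.map (cls r m) u x → y = x} := by
          rw [hsing]; exact ⟨x, h1, rfl⟩
        exact hy2 (h2 y hy1)
      · rw [if_neg hx]
    · exact n2 x

/-- **PART TWO** -/
theorem s_two : S_IND → S_STD → S_TWO := by
  intro hIND hSTD r m r' m' hm hm'
  obtain ⟨M, rfl⟩ : ∃ M, m = M + 2 := ⟨m - 2, by omega⟩
  obtain ⟨M', rfl⟩ : ∃ M', m' = M' + 2 := ⟨m' - 2, by omega⟩
  obtain ⟨α, hα⟩ := std_sum hSTD (Γ := Ga M M') (fun z => (z.1, z.2.2)) r (M + 2) hm (by
    rintro ⟨j, a, b⟩
    have h1 : {y : Ga M M' | (y.1, y.2.2) = (j, b)} =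
        Set.range (fun a' : Fin (M + 2) => ((j, a', b) : Ga M M')) := by
      ext ⟨j', a', b'⟩
      constructor
      · intro h
        simp only [mem_ofPred_eq, Prod.mk.injEq] at h
        exact ⟨a', by rw [h.1, h.2]⟩
      · rintro ⟨a'', h⟩
        simp only [Prod.mk.injEq] at h
        simp only [mem_ofPred_eq, Prod.mk.injEq]
        exact ⟨h.1.symm, h.2.2.symm⟩
    show {y : Ga M M' | (y.1, y.2.2) = (j, b)}.ncard = M + 2
    rw [h1, ← Nat.card_coe_set_eq, Nat.card_range_of_injective]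
    · simp
    · intro a a' h
      simpa using h)
  obtain ⟨α', hα'⟩ := std_sum hSTD (Γ := Ga M M') (fun z => (z.1, z.2.1)) r' (M' + 2) hm' (by
    rintro ⟨j, a, b⟩
    have h1 : {y : Ga M M' | (y.1, y.2.1) = (j, a)} =
        Set.range (fun b' : Fin (M' + 2) => ((j, a, b') : Ga M M')) := by
      ext ⟨j', a', b'⟩
      constructor
      · intro h
        simp only [mem_ofPred_eq, Prod.mk.injEq] at h
        exact ⟨b', by rw [h.1, h.2]⟩
      · rintro ⟨a'', h⟩
        simp only [Prod.mk.injEq] at h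
        simp only [mem_ofPred_eq, Prod.mk.injEq]
        exact ⟨h.1.symm, h.2.1.symm⟩
    show {y : Ga M M' | (y.1, y.2.1) = (j, a)}.ncard = M' + 2
    rw [h1, ← Nat.card_coe_set_eq, Nat.card_range_of_injective]
    · simp
    · intro a a' h
      simpa using h)
  let σ : (ℕ → Bool) → Equiv.Perm ℕ := fun c => (α'.symm.trans (pe c)).trans α
  have hσ : ∀ c n, σ c n = α (pe c (α'.symm n)) := fun c n => rfl
  have hσi : ∀ c n, (σ c)⁻¹ n = α' ((pe c).symm (α.symm n)) := fun c n => rfl
  -- continuity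
  have hcont : ∀ (z : Om M M') (β : Om M M' → ℕ),
      Continuous fun c : ℕ → Bool => β (pe c z) := by
    intro z β
    rcases z with x | ⟨⟨n, i⟩, a, b⟩
    · exact (continuous_const : Continuous fun _ : ℕ → Bool => β (Sum.inl x))
    · have h1 : (fun c : ℕ → Bool => β (pe c (Sum.inr (⟨n, i⟩, a, b)))) =
          (fun t : Bool => β (Sum.inr (if t = true ∧ a = 0 ∧ b = 0 then
            (⟨n, i + 1⟩, a, b) else (⟨n, i⟩, a, b)))) ∘ fun c => c n := by
        funext c
        rfl
      rw [h1]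
      exact continuous_of_discreteTopology.comp (continuous_apply n)
  have hcont' : ∀ (z : Om M M') (β : Om M M' → ℕ),
      Continuous fun c : ℕ → Bool => β ((pe c).symm z) := by
    intro z β
    rcases z with x | ⟨⟨n, i⟩, a, b⟩
    · exact (continuous_const : Continuous fun _ : ℕ → Bool => β (Sum.inl x))
    · have h1 : (fun c : ℕ → Bool => β ((pe c).symm (Sum.inr (⟨n, i⟩, a, b)))) =
          (fun t : Bool => β (Sum.inr (if t = true ∧ a = 0 ∧ b = 0 then
            (⟨n, i - 1⟩, a, b) else (⟨n, i⟩, a, b)))) ∘ fun c => c n := by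
        funext c
        rfl
      rw [h1]
      exact continuous_of_discreteTopology.comp (continuous_apply n)
  refine hIND (NE r (M + 2)) (NE r' (M' + 2)) (clo_NE _ _) (clo_NE _ _) σ ⟨?_, ?_⟩ ?_
  · exact continuous_pi fun n => hcont _ α
  · exact continuous_pi fun n => hcont' _ α'
  · intro c
    have hfin : {d : ℕ → Bool | ∀ n, r + r' ≤ n → (c n = true ↔ d n = true)}.Finite := by
      have hinj : Function.Injective
          (fun d : {d : ℕ → Bool // ∀ n, r + r' ≤ n → (c n = true ↔ d n = true)} =>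
            (fun i : Fin (r + r') => d.1 i)) := by
        rintro ⟨d, hd⟩ ⟨d', hd'⟩ h
        apply Subtype.ext
        funext n
        show d n = d' n
        by_cases hn : n < r + r'
        · exact congrFun h ⟨n, hn⟩
        · rw [Bool.eq_iff_iff, ← hd n (by omega), ← hd' n (by omega)]
      exact Finite.of_injective _ hinj
    refine hfin.countable.mono ?_
    rintro d ⟨g, hg, k, hk, hgk⟩ n hn
    -- the isomorphism
    let h : Om M M' ≃ Om M M' := (α.trans g).trans α.symm
    have hh : ∀ x, α (h x) = g (α x) := fun x => by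
      show α (α.symm (g (α x))) = _
      simp
    have h1 : ∀ x y, e1 r (h x) = e1 r (h y) ↔ e1 r x = e1 r y := by
      intro x y
      have a1 := hα (h x) (h y)
      have a2 := hα x y
      rw [hh, hh, mem_NE.1 hg] at a1
      exact a1.symm.trans a2
    have hinv : ∀ z, (σ d)⁻¹ (g z) = k⁻¹ ((σ c)⁻¹ z) := by
      intro z
      rw [hgk]
      simp [mul_inv_rev]
    have hfd : ∀ (d : ℕ → Bool) (x y : Om M M'), fc r' d x = fc r' d y ↔
        cls r' (M' + 2) ((σ d)⁻¹ (α x)) = cls r' (M' + 2) ((σ d)⁻¹ (α y)) := by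
      intro d x y
      rw [hσi, hσi, Equiv.symm_apply_apply, Equiv.symm_apply_apply, hα']
      rfl
    have h2 : ∀ x y, fc r' d (h x) = fc r' d (h y) ↔ fc r' c x = fc r' c y := by
      intro x y
      rw [hfd, hfd, hh, hh, hinv, hinv, mem_NE.1 (inv_mem hk)]
    constructor
    · intro hc
      exact det h h1 h2 hn hc
    · intro hd
      refine det h.symm (fun x y => ?_) (fun x y => ?_) hn hd
      · rw [← h1 (h.symm x) (h.symm y)]; simp
      · rw [← h2 (h.symm x) (h.symm y)]; simp

end Pool.Agent.L7h50.DU.Two
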